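import Pool.Agent.W994.ST.Stm

/-!
# NAMES: few namings allow many unannounced first queries of small rank
-/

set_option autoImplicit false

namespace Pool.Agent.W515.ST

open Finset Pool.Agent.W994.ST

open Classical in
/-- the number of different queries before time `p` -/
noncomputable def rk {𝒱 : Type} (q : ℕ → Option (𝒱 × Bool)) (p : ℕ) : ℕ :=
  ((range p).image q).card

section

variable {𝒱 St N : Type} {κ : ℕ} {qu : St → Option (𝒱 × Bool)} {nxt : St → 𝒱 → St}
  {nm : N × Fin κ → 𝒱} {X : (N → Fin κ) → 𝒱 × Bool → 𝒱} {σ : St}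

theorem aux (hnm : Function.Injective nm)
    (hX : ∀ a a' v, (∀ z, a z ≠ a' z → v.1 ≠ nm (z, a z) ∧ v.1 ≠ nm (z, a' z)) →
      (∀ z, a z ≠ a' z → X a v ≠ nm (z, a z)) → X a v = X a' v)
    (a a' : N → Fin κ) (p p' : N → ℕ)
    (hp : ∀ u, a u ≠ a' u → FT (X a) (trc qu nxt (X a) σ) (nm (u, a u)) (p u))
    (hp' : ∀ u, a u ≠ a' u → FT (X a') (trc qu nxt (X a') σ) (nm (u, a' u)) (p' u))
    (hr : ∀ u, a u ≠ a' u → rk (trc qu nxt (X a) σ) (p u) = rk (trc qu nxt (X a') σ) (p' u))
    (u0 : N) (hu0 : a u0 ≠ a' u0)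
    (hmin : ∀ u, a u ≠ a' u → p u0 ≤ p u ∧ p u0 ≤ p' u) : False := by
  classical
  have hrun : ∀ s, s ≤ p u0 → run qu nxt (X a) σ s = run qu nxt (X a') σ s := by
    intro s
    induction s with
    | zero => intro _; rfl
    | succ s ih =>
      intro hs
      have ih := ih (by omega)
      have e1 : run qu nxt (X a) σ (s + 1) = stp qu nxt (X a) (run qu nxt (X a) σ s) :=
        Function.iterate_succ_apply' _ _ _
      have e2 : run qu nxt (X a') σ (s + 1) = stp qu nxt (X a') (run qu nxt (X a') σ s) :=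
        Function.iterate_succ_apply' _ _ _
      rw [e1, e2, ← ih]
      unfold stp
      rcases hq : qu (run qu nxt (X a) σ s) with _ | v
      · rfl
      · have hXv : X a v = X a' v := by
          apply hX
          · intro z hz
            constructor
            · intro hv
              have h1 := ((hp z hz).2 s (by have := (hmin z hz).1; omega)).1
              apply h1
              refine ⟨v.2, ?_⟩
              show qu (run qu nxt (X a) σ s) = _
              rw [hq, ← hv]
            · intro hv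
              have h1 := ((hp' z hz).2 s (by have := (hmin z hz).2; omega)).1
              apply h1
              refine ⟨v.2, ?_⟩
              show qu (run qu nxt (X a') σ s) = _
              rw [← ih, hq, ← hv]
          · intro z hz hv
            have h1 := ((hp z hz).2 s (by have := (hmin z hz).1; omega)).2
            exact h1 ⟨v, hq, hv⟩
        show nxt (run qu nxt (X a) σ s) (X a v) = nxt (run qu nxt (X a) σ s) (X a' v)
        rw [hXv]
  have htrc : ∀ s, s ≤ p u0 → trc qu nxt (X a) σ s = trc qu nxt (X a') σ s := by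
    intro s hs
    unfold trc
    rw [hrun s hs]
  obtain ⟨c, hc⟩ := (hp u0 hu0).1
  have hle := (hmin u0 hu0).2
  rcases hle.eq_or_lt with heq | hlt
  · obtain ⟨c', hc'⟩ := (hp' u0 hu0).1
    rw [← heq, ← htrc _ le_rfl, hc] at hc'
    have h1 := congrArg Prod.fst (Option.some_injective _ hc')
    have h2 := congrArg Prod.snd (hnm h1)
    exact hu0 h2
  · have h1 := hr u0 hu0
    have h2 : rk (trc qu nxt (X a') σ) (p u0 + 1) ≤ rk (trc qu nxt (X a') σ) (p' u0) := by
      apply card_le_card
      apply image_subset_image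
      intro x hx
      rw [mem_range] at hx ⊢
      omega
    have h3 : rk (trc qu nxt (X a') σ) (p u0 + 1) = rk (trc qu nxt (X a) σ) (p u0) + 1 := by
      unfold rk
      rw [range_add_one, image_insert, card_insert_of_notMem]
      · congr 2
        apply image_congr
        intro s hs
        rw [mem_coe, mem_range] at hs
        exact (htrc s hs.le).symm
      · intro hmem
        obtain ⟨s, hs, hse⟩ := mem_image.mp hmem
        rw [mem_range] at hs
        have h4 := ((hp u0 hu0).2 s hs).1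
        apply h4
        refine ⟨c, ?_⟩
        rw [htrc s hs.le, hse, ← htrc _ le_rfl, hc]
    omega

theorem step1 (hnm : Function.Injective nm)
    (hX : ∀ a a' v, (∀ z, a z ≠ a' z → v.1 ≠ nm (z, a z) ∧ v.1 ≠ nm (z, a' z)) →
      (∀ z, a z ≠ a' z → X a v ≠ nm (z, a z)) → X a v = X a' v)
    (a a' : N → Fin κ)
    (h : ∀ u, a u ≠ a' u → ∃ p p', FT (X a) (trc qu nxt (X a) σ) (nm (u, a u)) p ∧
      FT (X a') (trc qu nxt (X a') σ) (nm (u, a' u)) p' ∧
      rk (trc qu nxt (X a) σ) p = rk (trc qu nxt (X a') σ) p') : a = a' := by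
  classical
  by_contra hne
  obtain ⟨u1, hu1⟩ := Function.ne_iff.mp hne
  have h' : ∀ u, ∃ p p', a u ≠ a' u → (FT (X a) (trc qu nxt (X a) σ) (nm (u, a u)) p ∧
      FT (X a') (trc qu nxt (X a') σ) (nm (u, a' u)) p' ∧
      rk (trc qu nxt (X a) σ) p = rk (trc qu nxt (X a') σ) p') := by
    intro u
    by_cases hu : a u = a' u
    · exact ⟨0, 0, fun h => absurd hu h⟩
    · obtain ⟨p, p', hpp⟩ := h u hu
      exact ⟨p, p', fun _ => hpp⟩
  choose p p' hpp using h'
  have hne' : {m : ℕ | ∃ u, a u ≠ a' u ∧ (p u = m ∨ p' u = m)}.Nonempty :=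
    ⟨p u1, u1, hu1, Or.inl rfl⟩
  obtain ⟨u0, hu0, hor⟩ := Nat.sInf_mem hne'
  have hmin : ∀ u, a u ≠ a' u →
      sInf {m : ℕ | ∃ u, a u ≠ a' u ∧ (p u = m ∨ p' u = m)} ≤ p u ∧
      sInf {m : ℕ | ∃ u, a u ≠ a' u ∧ (p u = m ∨ p' u = m)} ≤ p' u := fun u hu =>
    ⟨Nat.sInf_le ⟨u, hu, Or.inl rfl⟩, Nat.sInf_le ⟨u, hu, Or.inr rfl⟩⟩
  rcases hor with hor | hor
  · rw [← hor] at hmin
    exact aux hnm hX a a' p p' (fun u hu => (hpp u hu).1) (fun u hu => (hpp u hu).2.1)
      (fun u hu => (hpp u hu).2.2) u0 hu0 hmin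
  · rw [← hor] at hmin
    exact aux hnm hX a' a p' p (fun u hu => (hpp u hu.symm).2.1) (fun u hu => (hpp u hu.symm).1)
      (fun u hu => (hpp u hu.symm).2.2.symm) u0 hu0.symm
      (fun u hu => ⟨(hmin u hu.symm).2, (hmin u hu.symm).1⟩)

end

theorem main : NamesProp := by
  classical
  intro 𝒱 St N _ κ qu nxt nm hnm X hX σ m T
  set B := univ.filter fun a : N → Fin κ => ∃ z : Fin m → N, Function.Injective z ∧ ∀ j, ∃ p,
      FT (X a) (trc qu nxt (X a) σ) (nm (z j, a (z j))) p ∧
      ((range p).image (trc qu nxt (X a) σ)).card < T with hB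
  let Q : (Fin m → N) × (Fin m → Fin T) → Finset (N → Fin κ) := fun y =>
    univ.filter fun a => ∀ j, ∃ p, FT (X a) (trc qu nxt (X a) σ) (nm (y.1 j, a (y.1 j))) p ∧
      rk (trc qu nxt (X a) σ) p = (y.2 j).val
  let I : Finset ((Fin m → N) × (Fin m → Fin T)) := univ.filter fun y => Function.Injective y.1
  have hsub : B ⊆ I.biUnion Q := by
    intro a ha
    rw [hB, mem_filter] at ha
    obtain ⟨z, hz, hj⟩ := ha.2
    choose p hp1 hp2 using hj
    rw [mem_biUnion]
    refine ⟨(z, fun j => ⟨rk (trc qu nxt (X a) σ) (p j), ?_⟩), ?_, ?_⟩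
    · have := hp2 j
      unfold rk
      convert this
    · rw [mem_filter]
      exact ⟨mem_univ _, hz⟩
    · rw [mem_filter]
      exact ⟨mem_univ _, fun j => ⟨p j, hp1 j, rfl⟩⟩
  have hQ : ∀ y ∈ I, (Q y).card * κ ^ m ≤ κ ^ Fintype.card N := by
    intro y hy
    have hinj : Function.Injective y.1 := (mem_filter.mp hy).2
    have hm : m ≤ Fintype.card N := by
      have := Fintype.card_le_of_injective y.1 hinj
      simpa using this
    have h1 : (Q y).card ≤ Fintype.card ({u : N // u ∉ Set.range y.1} → Fin κ) := by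
      rw [← card_univ]
      apply card_le_card_of_injOn (fun a u => a u.1) (fun _ _ => mem_univ _)
      intro a ha a' ha' hEq
      have ha1 := (mem_filter.mp (mem_coe.mp ha)).2
      have ha1' := (mem_filter.mp (mem_coe.mp ha')).2
      apply step1 (qu := qu) (nxt := nxt) (σ := σ) hnm hX a a'
      intro u hu
      have hur : u ∈ Set.range y.1 := by
        by_contra hur
        exact hu (congrFun hEq ⟨u, hur⟩)
      obtain ⟨j, rfl⟩ := hur
      obtain ⟨p, hp1, hp2⟩ := ha1 j
      obtain ⟨p', hp1', hp2'⟩ := ha1' j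
      exact ⟨p, p', hp1, hp1', hp2.trans hp2'.symm⟩
    have h2 : Fintype.card {u : N // u ∉ Set.range y.1} = Fintype.card N - m := by
      rw [Fintype.card_subtype_compl]
      congr 1
      have := Set.card_range_of_injective hinj
      rw [Fintype.card_fin] at this
      exact (Fintype.card_congr (Equiv.refl _)).trans this
    rw [Fintype.card_fun, Fintype.card_fin, h2] at h1
    calc (Q y).card * κ ^ m ≤ κ ^ (Fintype.card N - m) * κ ^ m := Nat.mul_le_mul_right _ h1
      _ = κ ^ Fintype.card N := by rw [← pow_add, Nat.sub_add_cancel hm]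
  have hI : I.card ≤ (Fintype.card N * T) ^ m := by
    calc I.card ≤ (univ : Finset ((Fin m → N) × (Fin m → Fin T))).card := card_filter_le _ _
      _ = (Fintype.card N * T) ^ m := by
          rw [card_univ, Fintype.card_prod, Fintype.card_fun, Fintype.card_fun, Fintype.card_fin,
            Fintype.card_fin, mul_pow]
  calc B.card * κ ^ m ≤ (∑ y ∈ I, (Q y).card) * κ ^ m :=
        Nat.mul_le_mul_right _ ((card_le_card hsub).trans card_biUnion_le)
    _ = ∑ y ∈ I, (Q y).card * κ ^ m := sum_mul _ _ _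
    _ ≤ ∑ y ∈ I, κ ^ Fintype.card N := sum_le_sum hQ
    _ = I.card * κ ^ Fintype.card N := by rw [sum_const, smul_eq_mul]
    _ ≤ (Fintype.card N * T) ^ m * κ ^ Fintype.card N := Nat.mul_le_mul_right _ hI

end Pool.Agent.W515.ST
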